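import Mathlib
import Pool.Agent.Helper92.RK.Basic
import Pool.Agent.Helper16.CY.Elim

/-!
# Elimination of the last variable
-/

set_option autoImplicit false

namespace Pool.Agent.Helper77.RK

open MvPolynomial Pool.Agent.Helper92.RK

variable {b : ℕ} {M : Finset (Fin b →₀ ℕ)}

/-- The last variable separated. -/
def eo (s b : ℕ) : Fin (s + 1) ⊕ Fin b ≃ Option (Fin s ⊕ Fin b) where
  toFun := Sum.elim (fun i => (finSuccEquivLast i).map Sum.inl) fun j => some (.inr j)
  invFun o := o.elim (.inl (Fin.last s)) (Sum.map Fin.castSucc id)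
  left_inv := by
    rintro (i | j)
    · refine Fin.lastCases ?_ (fun i => ?_) i
      · simp
      · simp
    · rfl
  right_inv := by
    rintro (_ | (i | j))
    · simp
    · simp
    · rfl

theorem eo_castSucc (s b : ℕ) (x : Fin s ⊕ Fin b) : eo s b (Sum.map Fin.castSucc id x) = some x := by
  rcases x with i | j
  · simp [eo]
  · rfl

theorem eo_last (s b : ℕ) : eo s b (.inl (Fin.last s)) = none := by
  simp [eo]

/-- Polynomials in the last variable. -/
noncomputable def EE (K : Type) [Field K] (s b : ℕ) : MvPolynomial (Fin (s + 1) ⊕ Fin b) K ≃ₐ[K]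
    Polynomial (MvPolynomial (Fin s ⊕ Fin b) K) :=
  (renameEquiv K (eo s b)).trans (optionEquivLeft K (Fin s ⊕ Fin b))

theorem EE_rename (K : Type) [Field K] (s b : ℕ) (g : MvPolynomial (Fin s ⊕ Fin b) K) :
    EE K s b (rename (Sum.map Fin.castSucc id) g) = Polynomial.C g := by
  have h : ((EE K s b : _ →ₐ[K] _).comp (rename (Sum.map Fin.castSucc id))) =
      (Algebra.ofId _ _ : MvPolynomial (Fin s ⊕ Fin b) K →ₐ[MvPolynomial (Fin s ⊕ Fin b) K]
        Polynomial (MvPolynomial (Fin s ⊕ Fin b) K)).restrictScalars K := by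
    refine MvPolynomial.algHom_ext fun x => ?_
    show EE K s b (rename (Sum.map Fin.castSucc id) (X x)) = Polynomial.C (X x)
    rw [rename_X, EE, AlgEquiv.trans_apply, renameEquiv_apply, rename_X, eo_castSucc,
      optionEquivLeft_X_some]
  exact congrArg (fun f : MvPolynomial (Fin s ⊕ Fin b) K →ₐ[K] _ => f g) h

theorem EE_last (K : Type) [Field K] (s b : ℕ) :
    EE K s b (X (.inl (Fin.last s))) = Polynomial.X := by
  rw [EE, AlgEquiv.trans_apply, renameEquiv_apply, rename_X, eo_last, optionEquivLeft_X_none]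

theorem EE_form {K : Type} [Field K] {s : ℕ} (a : Ix (s + 1) M → K) :
    EE K s b (form a) = ∑ j : Fin 3, Polynomial.C (form (sub j a)) * Polynomial.X ^ (j : ℕ) := by
  rw [form_eq, map_sum]
  refine Finset.sum_congr rfl fun j _ => ?_
  rw [map_mul, map_pow, EE_rename, EE_last]

theorem form_ne {K : Type} [Field K] {s : ℕ} (a : Ix (s + 1) M → K)
    (hA : form (sub 2 a) ≠ 0) : form a ≠ 0 := by
  intro h
  have h1 := EE_form a
  rw [h, map_zero, Fin.sum_univ_three] at h1
  apply hA
  have h2 := congrArg (fun p => Polynomial.coeff p 2) h1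
  simp at h2
  exact h2.symm

/-- Elimination from a prime form. -/
theorem bezout_of {K : Type} [Field K] {s : ℕ} (a : Ix (s + 1) M → K)
    (hA : form (sub 2 a) ≠ 0) (hp : (Ideal.span {form a}).IsPrime)
    (h : MvPolynomial (Fin (s + 1) ⊕ Fin b) K) (hh : h ∉ Ideal.span {form a}) :
    ∃ (g : MvPolynomial (Fin s ⊕ Fin b) K) (u v : MvPolynomial (Fin (s + 1) ⊕ Fin b) K),
      g ≠ 0 ∧ u * form a + v * h = rename (Sum.map Fin.castSucc id) g := by
  have hne := form_ne a hA
  have hpr : Prime (form a) := (Ideal.span_singleton_prime hne).1 hp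
  have hrel : IsRelPrime (form a) h := by
    rw [hpr.irreducible.isRelPrime_iff_not_dvd]
    rwa [Ideal.mem_span_singleton] at hh
  have hrel' : IsRelPrime (EE K s b (form a)) (EE K s b h) := by
    intro u hu hv
    have h1 : (EE K s b).symm u ∣ form a := by
      have := map_dvd (EE K s b).symm hu
      rwa [AlgEquiv.symm_apply_apply] at this
    have h2 : (EE K s b).symm u ∣ h := by
      have := map_dvd (EE K s b).symm hv
      rwa [AlgEquiv.symm_apply_apply] at this
    have := (hrel h1 h2).map (EE K s b)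
    rwa [AlgEquiv.apply_symm_apply] at this
  obtain ⟨r, A, B, hr, hAB⟩ := Pool.Agent.Helper16.CY.exists_combination hrel'
  refine ⟨r, (EE K s b).symm A, (EE K s b).symm B, hr, ?_⟩
  apply (EE K s b).injective
  rw [map_add, map_mul, map_mul, AlgEquiv.apply_symm_apply, AlgEquiv.apply_symm_apply, hAB,
    EE_rename]

end Pool.Agent.Helper77.RK
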