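import Mathlib
import Pool.Agent.Helper64.RK.Prime
import Pool.Agent.Helper77.RK.Bez

/-!
# Elimination of the last variable: D2
-/

set_option autoImplicit false

namespace Pool.Agent.Helper77.RK

open MvPolynomial Pool.Agent.Helper92.RK

variable {b : ℕ} {M : Finset (Fin b →₀ ℕ)}

theorem bezout {K : Type} [Field K] [CharZero K] {s : ℕ} (a : Ix (s + 1) M → K)
    (hc : IsRelPrime (form (sub 2 a)) (form (sub 1 a))) (hA : form (sub 2 a) ≠ 0)
    (hq : ∀ g : MvPolynomial (Fin s ⊕ Fin b) K, g ^ 2 ≠ dis a)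
    (h : MvPolynomial (Fin (s + 1) ⊕ Fin b) K) (hh : h ∉ Ideal.span {form a}) :
    ∃ (g : MvPolynomial (Fin s ⊕ Fin b) K) (u v : MvPolynomial (Fin (s + 1) ⊕ Fin b) K),
      g ≠ 0 ∧ u * form a + v * h = rename (Sum.map Fin.castSucc id) g :=
  bezout_of a hA (Pool.Agent.Helper64.RK.prime_of a hc hA hq) h hh

end Pool.Agent.Helper77.RK
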